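import Pool.Agent.W2helper61.Mes.Defs
import Mathlib.Order.Filter.AtTopBot.Basic

/-!
# Resource-bounded dimension relative to an oracle

The measure notions are those of `Pool.Agent.W2helper61.Mes.Defs`.
-/

namespace Pool.Agent.W2helper61.Dim

open Pool.Agent.NPC Pool.Agent.H628R3.RO Filter
open Pool.Agent.W2helper61.Mes (ones pre IsDensity Names IsFP2)

/-- `F` computes approximations of `d`: on input `(1^r, w)` the output names a dyadic rational at
distance at most `2 ^ (-r)` from `d w`. -/
def Approx1 (F : List Bool → List Bool) (d : List Bool → ℝ) : Prop :=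
  ∀ (r : ℕ) (w : List Bool), ∃ x : ℝ, Names (F (pairBits (ones r) w)) x ∧ |x - d w| ≤ (1 / 2) ^ r

/-- For some `q`, the density function `d` takes a value at least `2 ^ (n / q)` on the prefix of
length `n` of the characteristic sequence of every language in `X`, for infinitely many `n`. -/
def Grows (d : List Bool → ℝ) (X : Set (Set (List Bool))) : Prop :=
  ∃ q : ℕ, ∀ L ∈ X, ∃ᶠ n in atTop, (2 : ℝ) ^ n ≤ (d (pre L n)) ^ q

/-- The `p`-dimension of the class `X` relative to `A` is less than one. -/
def SmallDim (A : Oracle) (X : Set (Set (List Bool))) : Prop :=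
  ∃ (d : List Bool → ℝ) (F : List Bool → List Bool), IsDensity d ∧ Grows d X ∧ IsFP A F ∧
    Approx1 F d

/-- The `p₂`-dimension of the class `X` relative to `A` is less than one. -/
def SmallDim2 (A : Oracle) (X : Set (Set (List Bool))) : Prop :=
  ∃ (d : List Bool → ℝ) (F : List Bool → List Bool), IsDensity d ∧ Grows d X ∧ IsFP2 A F ∧
    Approx1 F d

end Pool.Agent.W2helper61.Dim
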