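import Pool.Agent.W2helper61.Dim.Ae
import Pool.Agent.W2helper61.Dim.Defs
import Pool.Agent.W2helper61.Mes.Final

/-!
# The oracle
-/

namespace Pool.Agent.W2helper61.Dim

open MeasureTheory Filter Pool.Agent.NPC Pool.Agent.H628R3.RO
open scoped ENNReal Topology
open Pool.Agent.W2helper61.Mes (ones str pre code cs code_inj cs_inj length_code ones_inj
  pairBits_inj length_ones length_cs Acc acc_local LB exists_lb IsDensity IsNullCover NullP NullP2
  Approx Names length_str_eq pre_succ length_pre LK p_codeK InE InE2 IsFP2 pq exists_enum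
  out_congr' poly_le_pow)

/-! ### The languages of the columns -/

theorem u_lev {α : Type} [TEnc α] {x : α → List Bool} (K : ℕ) (hx : Poly x) :
    UPoly (fun a => lev K (x a)) := by
  rcases Nat.mod_two_eq_zero_or_one K with hK | hK
  · have h := UPoly.eval (UPoly.length hx) ((Polynomial.X + Polynomial.C 2) ^ (K + 2) : Polynomial ℕ)
    have e : (fun a => ((Polynomial.X + Polynomial.C 2) ^ (K + 2) : Polynomial ℕ).eval (x a).length) =
        fun a => lev K (x a) := by
      funext a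
      simp [lev, hK]
    rwa [e] at h
  · have h := UPoly.eval (UPoly.length hx)
      (Polynomial.C (K + 2) * (Polynomial.X + Polynomial.C 1) : Polynomial ℕ)
    have e : (fun a => (Polynomial.C (K + 2) * (Polynomial.X + Polynomial.C 1) :
        Polynomial ℕ).eval (x a).length) = fun a => lev K (x a) := by
      funext a
      simp [lev, hK]
    rwa [e] at h

theorem exists_lev (K : ℕ) : ∃ P : Polynomial ℕ, ∀ x, P.eval x.length = lev K x := by
  rcases Nat.mod_two_eq_zero_or_one K with hK | hK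
  · exact ⟨(Polynomial.X + Polynomial.C 2) ^ (K + 2), fun x => by simp [lev, hK]⟩
  · exact ⟨Polynomial.C (K + 2) * (Polynomial.X + Polynomial.C 1), fun x => by simp [lev, hK]⟩

theorem isNP_LK (B : List Bool → Bool) (ω : Oracle) (K : ℕ) : IsNP (orc B ω) (LK ω K) := by
  obtain ⟨P, hP⟩ := exists_lev K
  refine isNP_of_tt (orc B ω) (LK ω K) (Q := fun z => [true :: code K z.1 z.2])
    (T := fun z => decide (z.1.2.length = lev K z.1.1) && decide (z.2 = [true]))
    (Poly.cons (p_codeK K (Poly.fst Poly.id) (Poly.snd Poly.id)) (NPC.Poly.const []))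
    (Poly.and (Poly.decide_eq (Poly.length (Poly.snd (Poly.fst Poly.id)))
      (u_lev K (Poly.fst (Poly.fst Poly.id))).toPoly)
      (Poly.decide_eq (Poly.snd Poly.id) (NPC.Poly.const [true]))) P fun x => ?_
  rw [mem_LK (B := B)]
  refine exists_congr fun y => ?_
  rw [hP x]
  simp only [List.map_cons, List.map_nil, Bool.and_eq_true, decide_eq_true_eq,
    List.cons.injEq, and_true]
  constructor
  · rintro ⟨h2, h3⟩; exact ⟨h2.le, h2, h3⟩
  · rintro ⟨_, h2, h3⟩; exact ⟨h2, h3⟩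

/-- the length of the witnesses searched by the exponential time algorithm -/
def lE (K : ℕ) (u : List Bool) : ℕ := min (lev K (unpair u).1) ((unpair u).2.length.size - 1)

theorem u_lE (K : ℕ) : UPoly (lE K) := by
  have hx : Poly (fun u : List Bool => (unpair u).1) := Poly.fst poly_unpair
  have hp : Poly (fun u : List Bool => (unpair u).2) := Poly.snd poly_unpair
  refine UPoly.of_le (n := fun u => lev K (unpair u).1) ?_ (u_lev K hx) fun u => min_le_left _ _
  refine Poly.min (u_lev K hx).toPoly (Poly.sub ?_ (NPC.Poly.const 1))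
  refine (Poly.length (Poly.natBits (Poly.length hp))).congr fun u => ?_
  rw [Nat.size_eq_bits_len]

theorem two_pow_lE (K : ℕ) (u : List Bool) : 2 ^ (lE K u) ≤ (unpair u).2.length + 1 := by
  have h1 : lE K u ≤ (unpair u).2.length.size - 1 := min_le_right _ _
  refine (Nat.pow_le_pow_right (by norm_num) h1).trans ?_
  rcases Nat.eq_zero_or_pos (unpair u).2.length.size with h0 | h0
  · rw [h0]; simp
  · have h2 : (unpair u).2.length.size - 1 < (unpair u).2.length.size := by omega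
    have := Nat.lt_size.1 h2
    omega

theorem dec_LK (B : List Bool → Bool) (ω : Oracle) (K : ℕ) :
    ∃ F : List Bool → List Bool, IsFP (orc B ω) F ∧
      ∀ x, x ∈ LK ω K ↔ F (pairBits x (ones (2 ^ (lev K x)))) = [true] := by
  have hx : Poly (fun u : List Bool => (unpair u).1) := Poly.fst poly_unpair
  have hp : Poly (fun u : List Bool => (unpair u).2) := Poly.snd poly_unpair
  have hQ : Poly (fun u : List Bool => (strsEq (lE K u)).map
      (fun y => true :: code K (unpair u).1 y)) := by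
    refine NPC.Poly.map (l := fun u : List Bool => strsEq (lE K u))
      (F := fun u y => true :: code K (unpair u).1 y) ?_ ?_
    · exact p_strsEq (u_lE K) (N := fun u => (unpair u).2.length + 1)
        (UPoly.add (UPoly.length hp) (UPoly.const 1)) (two_pow_lE K)
    · exact p_codeK K (hx.comp (Poly.fst Poly.id)) (Poly.snd Poly.id)
  have hH : Poly (fun z : List Bool × List Bool => [decide (true ∈ z.2)]) :=
    Poly.cons (Poly.decide_mem (NPC.Poly.const true) (Poly.snd Poly.id)) (NPC.Poly.const [])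
  refine ⟨_, IsFP.tt hQ hH, fun x => ?_⟩
  rw [mem_LK (B := B)]
  have h1 : lE K (pairBits x (ones (2 ^ (lev K x)))) = lev K x := by
    unfold lE
    rw [unpair_pairBits, length_ones]
    have h2 : (2 ^ (lev K x)).size = lev K x + 1 := Nat.size_pow
    rw [h2]
    simp
  simp only [List.cons.injEq, and_true, decide_eq_true_eq, List.map_map, List.mem_map,
    unpair_pairBits, h1, mem_strsEq, Function.comp_apply]

theorem inE2_LK (B : List Bool → Bool) (ω : Oracle) {K : ℕ} (hK : K % 2 = 0) :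
    InE2 (orc B ω) (LK ω K) := by
  obtain ⟨F, h1, h2⟩ := dec_LK B ω K
  refine ⟨K + 2, F, h1, fun x => ?_⟩
  rw [h2]
  unfold lev
  rw [if_pos hK]

theorem inE_LK (B : List Bool → Bool) (ω : Oracle) {K : ℕ} (hK : K % 2 ≠ 0) :
    InE (orc B ω) (LK ω K) := by
  obtain ⟨F, h1, h2⟩ := dec_LK B ω K
  refine ⟨K + 2, F, h1, fun x => ?_⟩
  rw [h2]
  unfold lev
  rw [if_neg hK]

/-! ### The numbers -/

theorem pow_ev (a : ℕ) : ∀ᶠ m : ℕ in atTop, (m + 2) ^ a ≤ 2 ^ m := by
  have h2 : Tendsto (fun n : ℕ => ((n : ℝ) ^ a / 2 ^ n)) atTop (𝓝 0) :=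
    tendsto_pow_const_div_const_pow_of_one_lt a (show (1 : ℝ) < 2 by norm_num)
  have h3 := (h2.comp (tendsto_add_atTop_nat 2)).eventually
    (gt_mem_nhds (show (0 : ℝ) < 1 / 4 by norm_num))
  filter_upwards [h3] with m hm
  simp only [Function.comp_apply] at hm
  rw [div_lt_iff₀ (by positivity), pow_add] at hm
  have h4 : (((m + 2 : ℕ) : ℝ)) ^ a ≤ 2 ^ m := by nlinarith [show (0 : ℝ) < 2 ^ m by positivity]
  exact_mod_cast h4

theorem poly_ev (P : Polynomial ℕ) : ∀ᶠ m : ℕ in atTop, P.eval m ≤ 2 ^ m := by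
  obtain ⟨a, ha⟩ := poly_le_pow P
  filter_upwards [pow_ev a] with m hm
  exact (ha m).trans hm

theorem log_sq (x : ℕ) : (Nat.log 2 x + 1) * (Nat.log 2 x + 1) ≤ 4 * x + 4 := by
  rcases Nat.eq_zero_or_pos x with rfl | hx
  · simp
  · have h1 : 2 ^ Nat.log 2 x ≤ x := Nat.pow_log_le_self 2 (by omega)
    have h2 : ∀ l : ℕ, (l + 1) * (l + 1) ≤ 4 * 2 ^ l := by
      intro l
      induction l with
      | zero => norm_num
      | succ l ih =>
        rw [pow_succ]
        rcases l with _ | _ | l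
        · norm_num
        · norm_num
        · nlinarith
    have := h2 (Nat.log 2 x)
    omega

theorem exists_exp (P Q : Polynomial ℕ) : ∃ a : ℕ, ∀ n, P.eval n ≤ (n + 2) ^ a ∧
    Q.eval n ≤ (n + 2) ^ a := by
  obtain ⟨a, ha⟩ := poly_le_pow P
  obtain ⟨b, hb⟩ := poly_le_pow Q
  refine ⟨a + b, fun n => ⟨(ha n).trans ?_, (hb n).trans ?_⟩⟩
  · exact Nat.pow_le_pow_right (by omega) (by omega)
  · exact Nat.pow_le_pow_right (by omega) (by omega)

theorem len_lt {t n : ℕ} (hn : (str t).length = n) : 3 * t + 8 < 2 ^ (n + 5) := by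
  have ht := (length_str_eq (n := t) (m := n)).1 hn
  have h5 : 2 ^ (n + 5) = 32 * 2 ^ n := by rw [pow_add]; ring
  have h6 : 2 ^ (n + 1) = 2 * 2 ^ n := by rw [pow_succ]; ring
  have h7 : 0 < 2 ^ n := by positivity
  omega

/-! ### The class `p` -/

/-- the inputs in the case of `p` -/
def inp1 (r : ℕ) (w : List Bool) : List Bool := pairBits (ones r) w

theorem bad1 (e : ℕ → Alg × Polynomial ℕ) (lb : ℕ → ℕ → ℕ) (M : Alg) (c₀ : ℕ) {q : ℕ}
    (hq : 1 ≤ q) : randomOracle (Bad e lb M inp1 c₀ {K | K % 2 ≠ 0} q) = 0 := by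
  obtain ⟨qb, hqb⟩ := out_congr' M
  obtain ⟨a, ha⟩ := exists_exp M.p qb
  have hln : ∀ r w, (inp1 r w).length = (fun r l => 2 * r + 1 + l) r w.length := by
    intro r w
    unfold inp1
    rw [length_pairBits, length_ones]
  have hlen : ∀ t : ℕ, 2 * (t + 3) + 1 + (t + 1) + 2 ≤ 2 ^ ((str t).length + 6) := by
    intro t
    have h1 := len_lt (t := t) rfl
    have h2 : 2 ^ ((str t).length + 6) = 2 * 2 ^ ((str t).length + 5) := by rw [pow_succ]; ring
    omega
  have hpow : ∀ t : ℕ, (2 * (t + 3) + 1 + (t + 1) + 2) ^ a ≤ 2 ^ (((str t).length + 6) * a) := by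
    intro t
    rw [pow_mul]
    exact Nat.pow_le_pow_left (hlen t) a
  refine measure_Bad (Rn := fun n => (n + 6) * a)
    (E := fun n => (JJ (fun n => (n + 6) * a) n + 1) * (JJ (fun n => (n + 6) * a) n + 1) +
      (1 + (n + 6) * a)) e lb M c₀ hln hqb ?_ ?_ ?_ _ ?_ hq ?_
  · intro m n h
    exact Nat.mul_le_mul_right _ (by omega)
  · intro t
    exact (ha _).2.trans (hpow t)
  · intro t
    rw [pow_add _ _ (1 + ((str t).length + 6) * a), pow_add _ 1, pow_one]
    exact Nat.mul_le_mul_left _ (Nat.mul_le_mul_left _ ((ha _).1.trans (hpow t)))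
  · intro j
    refine ⟨2 * (30 * a + 7 + j) + 1, ?_, fun t => ?_⟩
    · rw [Set.mem_ofPred_eq]; omega
    · obtain ⟨n, hn⟩ : ∃ n, n = (str t).length := ⟨_, rfl⟩
      have h1 := log_sq ((n + 6) * a)
      have h2 : lev (2 * (30 * a + 7 + j) + 1) (str t) = (2 * (30 * a + 7 + j) + 3) * (n + 1) := by
        unfold lev
        rw [if_neg (by omega), hn]
      rw [h2, ← hn]
      unfold JJ
      nlinarith
  · have h1 := poly_ev (Polynomial.C q * ((Polynomial.C 4 * ((Polynomial.X + Polynomial.C 6) *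
      Polynomial.C a) + Polynomial.C 4) + (Polynomial.X + Polynomial.C 1) + Polynomial.C (c₀ + 1) +
      Polynomial.X + Polynomial.C 1) + Polynomial.C 1)
    filter_upwards [h1] with n hn
    simp only [Polynomial.eval_add, Polynomial.eval_mul, Polynomial.eval_C,
      Polynomial.eval_X] at hn
    refine le_trans ?_ hn
    have h2 := log_sq ((n + 6) * a)
    unfold JJ
    gcongr

/-! ### The class `p₂` -/

/-- the inputs in the case of `p₂` -/
def inp2 (c : ℕ) (r : ℕ) (w : List Bool) : List Bool := pq c (pairBits (ones r) w)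

theorem bad2 (e : ℕ → Alg × Polynomial ℕ) (lb : ℕ → ℕ → ℕ) (M : Alg) (c c₀ : ℕ) {q : ℕ}
    (hq : 1 ≤ q) : randomOracle (Bad e lb M (inp2 c) c₀ {K | K % 2 = 0} q) = 0 := by
  obtain ⟨qb, hqb⟩ := out_congr' M
  obtain ⟨a, ha⟩ := exists_exp M.p qb
  have hln : ∀ r w, (inp2 c r w).length = (fun r l => 2 * (2 * r + 1 + l) + 1 +
      2 ^ ((2 * r + 1 + l).size ^ c)) r w.length := by
    intro r w
    unfold inp2 pq
    rw [length_pairBits, length_ones, length_pairBits, length_ones]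
  have hlen : ∀ t : ℕ, 2 * (2 * (t + 3) + 1 + (t + 1)) + 1 +
      2 ^ ((2 * (t + 3) + 1 + (t + 1)).size ^ c) + 2 ≤
        2 ^ ((str t).length + 5 + ((str t).length + 5) ^ c + 3) := by
    intro t
    obtain ⟨n, hn⟩ : ∃ n, n = (str t).length := ⟨_, rfl⟩
    have h1 := len_lt hn.symm
    rw [← hn]
    obtain ⟨σ, hσ⟩ : ∃ σ, σ = n + 5 := ⟨_, rfl⟩
    rw [← hσ] at h1 ⊢
    have h1' : 2 * (t + 3) + 1 + (t + 1) < 2 ^ σ := by omega
    have h2 : (2 * (t + 3) + 1 + (t + 1)).size ≤ σ := Nat.size_le.2 h1'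
    have h4 : 2 ^ ((2 * (t + 3) + 1 + (t + 1)).size ^ c) ≤ 2 ^ (σ + σ ^ c) :=
      Nat.pow_le_pow_right (by norm_num)
        ((Nat.pow_le_pow_left h2 c).trans (Nat.le_add_left _ _))
    have h5 : 2 ^ σ ≤ 2 ^ (σ + σ ^ c) := Nat.pow_le_pow_right (by norm_num) (Nat.le_add_right _ _)
    have h6 : 2 ^ (σ + σ ^ c + 3) = 8 * 2 ^ (σ + σ ^ c) := by rw [pow_add]; ring
    have h7 : 0 < 2 ^ (σ + σ ^ c) := by positivity
    omega
  have hpow : ∀ t : ℕ, (2 * (2 * (t + 3) + 1 + (t + 1)) + 1 +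
      2 ^ ((2 * (t + 3) + 1 + (t + 1)).size ^ c) + 2) ^ a ≤
        2 ^ (((str t).length + 5 + ((str t).length + 5) ^ c + 3) * a) := by
    intro t
    rw [pow_mul]
    exact Nat.pow_le_pow_left (hlen t) a
  have hJ : ∀ n : ℕ, (JJ (fun n => (n + 5 + (n + 5) ^ c + 3) * a) n + 1) *
      (JJ (fun n => (n + 5 + (n + 5) ^ c + 3) * a) n + 1) ≤
        4 * ((n + 5 + (n + 5) ^ c + 3) * a) + 4 := fun n => log_sq _
  refine measure_Bad (ln := fun r l => 2 * (2 * r + 1 + l) + 1 + 2 ^ ((2 * r + 1 + l).size ^ c))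
    (Rn := fun n => (n + 5 + (n + 5) ^ c + 3) * a)
    (E := fun n => (4 * ((n + 5 + (n + 5) ^ c + 3) * a) + 4) +
      (1 + (n + 5 + (n + 5) ^ c + 3) * a)) e lb M c₀ hln hqb ?_ ?_ ?_ _ ?_ hq ?_
  · intro m n h
    refine Nat.mul_le_mul_right _ ?_
    have : (m + 5) ^ c ≤ (n + 5) ^ c := Nat.pow_le_pow_left (by omega) c
    omega
  · intro t
    exact (ha _).2.trans (hpow t)
  · intro t
    rw [pow_add _ _ (1 + ((str t).length + 5 + ((str t).length + 5) ^ c + 3) * a),
      pow_add _ 1, pow_one]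
    exact Nat.mul_le_mul (Nat.pow_le_pow_right (by norm_num) (hJ _))
      (Nat.mul_le_mul_left _ ((ha _).1.trans (hpow t)))
  · intro j
    obtain ⟨b, hb⟩ := poly_le_pow (((Polynomial.C 4 * ((Polynomial.X + Polynomial.C 5 +
      (Polynomial.X + Polynomial.C 5) ^ c + Polynomial.C 3) * Polynomial.C a) + Polynomial.C 4) +
      (Polynomial.C 1 + (Polynomial.X + Polynomial.C 5 +
      (Polynomial.X + Polynomial.C 5) ^ c + Polynomial.C 3) * Polynomial.C a)) +
      (Polynomial.C 2 * (Polynomial.X + Polynomial.C 1) + Polynomial.C j) : Polynomial ℕ)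
    refine ⟨2 * b, ?_, fun t => ?_⟩
    · rw [Set.mem_ofPred_eq]; omega
    · have hb' := hb (str t).length
      simp only [Polynomial.eval_add, Polynomial.eval_mul, Polynomial.eval_pow, Polynomial.eval_C,
        Polynomial.eval_X] at hb'
      have h2 : lev (2 * b) (str t) = ((str t).length + 2) ^ (2 * b + 2) := by
        unfold lev
        rw [if_pos (by omega)]
      rw [h2]
      refine hb'.trans (Nat.pow_le_pow_right (by omega) (by omega))
  · have h1 := poly_ev (Polynomial.C q * ((Polynomial.C 4 * ((Polynomial.X + Polynomial.C 5 +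
      (Polynomial.X + Polynomial.C 5) ^ c + Polynomial.C 3) * Polynomial.C a) + Polynomial.C 4) +
      (Polynomial.X + Polynomial.C 1) + Polynomial.C (c₀ + 1) +
      Polynomial.X + Polynomial.C 1) + Polynomial.C 1)
    filter_upwards [h1] with n hn
    simp only [Polynomial.eval_add, Polynomial.eval_mul, Polynomial.eval_C, Polynomial.eval_pow,
      Polynomial.eval_X] at hn
    refine le_trans ?_ hn
    have h2 := hJ n
    gcongr

/-! ### The oracle -/

theorem nullP2_of {A : Oracle} {X : Set (Set (List Bool))} (h : NullP A X) : NullP2 A X := by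
  obtain ⟨d, F, h1, h2, h3⟩ := h
  refine ⟨d, F, h1, ⟨0, fun z => F (unpair z).1, ?_, fun u => ?_⟩, h3⟩
  · exact h2.comp (IsFP.of_poly (Poly.fst poly_unpair))
  · simp only [unpair_pairBits]

theorem NullP_mono {A : Oracle} {X Y : Set (Set (List Bool))} (h : NullP A Y) (hXY : X ⊆ Y) :
    NullP A X := by
  obtain ⟨d, F, ⟨h1, h2, h3⟩, h4, h5⟩ := h
  exact ⟨d, F, ⟨h1, h2, fun k L hL => h3 k L (hXY hL)⟩, h4, h5⟩

theorem dimension_oracle : ∃ A : Oracle, NullP A {L | IsNP A L} ∧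
    ¬ SmallDim A {L | IsNP A L ∧ InE A L} ∧ ¬ SmallDim2 A {L | IsNP A L ∧ InE2 A L} := by
  obtain ⟨e, he⟩ := exists_enum
  obtain ⟨lb, hlb⟩ := exists_lb e
  have h1 : ∀ᵐ ω ∂randomOracle, ∀ (M : Alg) (c₀ q : ℕ), 1 ≤ q →
      ω ∉ Bad e lb M inp1 c₀ {K | K % 2 ≠ 0} q := by
    rw [ae_all_iff]
    intro M
    rw [ae_all_iff]
    intro c₀
    rw [ae_all_iff]
    intro q
    by_cases hq : 1 ≤ q
    · filter_upwards [measure_eq_zero_iff_ae_notMem.1 (bad1 e lb M c₀ hq)] with ω hω _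
      exact hω
    · exact Filter.Eventually.of_forall fun ω h => (hq h).elim
  have h2 : ∀ᵐ ω ∂randomOracle, ∀ (M : Alg) (c c₀ q : ℕ), 1 ≤ q →
      ω ∉ Bad e lb M (inp2 c) c₀ {K | K % 2 = 0} q := by
    rw [ae_all_iff]
    intro M
    rw [ae_all_iff]
    intro c
    rw [ae_all_iff]
    intro c₀
    rw [ae_all_iff]
    intro q
    by_cases hq : 1 ≤ q
    · filter_upwards [measure_eq_zero_iff_ae_notMem.1 (bad2 e lb M c c₀ hq)] with ω hω _
      exact hω
    · exact Filter.Eventually.of_forall fun ω h => (hq h).elim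
  obtain ⟨ω, h3, h4⟩ := (h1.and h2).exists
  have hq0 : ∀ (d : List Bool → ℝ) (q : ℕ) (L : Set (List Bool)),
      (∃ᶠ n in atTop, (2 : ℝ) ^ n ≤ (d (pre L n)) ^ q) → 1 ≤ q := by
    intro d q L h
    by_contra hcon
    have hq : q = 0 := by omega
    subst hq
    obtain ⟨n, hn1, hn2⟩ := frequently_atTop.1 h 1
    rw [pow_zero] at hn2
    have : (2 : ℝ) ^ 1 ≤ 2 ^ n := pow_le_pow_right₀ (by norm_num) hn1
    linarith
  refine ⟨orc (Gd lb (vs e lb ω)) ω, null_np hlb he ω, ?_, ?_⟩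
  · rintro ⟨d, F, hd, ⟨q, hg⟩, ⟨M, hM⟩, hF⟩
    obtain ⟨c₀, hc₀⟩ := exists_nat_ge (d [])
    have hg' : ∀ K ∈ {K | K % 2 ≠ 0}, ∃ᶠ n in atTop, (2 : ℝ) ^ n ≤ (d (pre (LK ω K) n)) ^ q :=
      fun K hK => hg _ ⟨isNP_LK _ ω K, inE_LK _ ω hK⟩
    refine h3 M c₀ q (hq0 d q _ (hg' 1 (by simp))) ⟨d, hd, hc₀, fun r w => ?_, hg'⟩
    obtain ⟨x, hx1, hx2⟩ := hF r w
    exact ⟨_, x, hM _, hx1, hx2⟩
  · rintro ⟨d, F, hd, ⟨q, hg⟩, ⟨c, F', ⟨M, hM⟩, hF'⟩, hF⟩
    obtain ⟨c₀, hc₀⟩ := exists_nat_ge (d [])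
    have hg' : ∀ K ∈ {K | K % 2 = 0}, ∃ᶠ n in atTop, (2 : ℝ) ^ n ≤ (d (pre (LK ω K) n)) ^ q :=
      fun K hK => hg _ ⟨isNP_LK _ ω K, inE2_LK _ ω hK⟩
    refine h4 M c c₀ q (hq0 d q _ (hg' 0 (by simp))) ⟨d, hd, hc₀, fun r w => ?_, hg'⟩
    obtain ⟨x, hx1, hx2⟩ := hF r w
    refine ⟨_, x, hM _, ?_, hx2⟩
    rw [hF'] at hx1
    exact hx1

end Pool.Agent.W2helper61.Dim
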