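import Pool.Agent.W2helper61.Dim.Ville

/-!
# No computable density function grows exponentially on the columns (continued)
-/

namespace Pool.Agent.W2helper61.Dim

open MeasureTheory Filter Pool.Agent.NPC Pool.Agent.H628R3.RO
open scoped ENNReal Topology
open Pool.Agent.W2helper61.Mes (ones str pre code cs code_inj cs_inj length_code ones_inj
  pairBits_inj length_ones length_cs Acc acc_local LB exists_lb IsDensity IsNullCover NullP
  Approx Names length_str_eq pre_succ length_pre LK cmb cmb_of_mem cmb_of_notMem zer Dep cmb_cmb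
  dyv dyv_eq Kp cs_mem_Kp Agr agr_cmb agr_flp pre_agr flp flp_self flp_mp length_str_mono
  length_str_le out_congr' measure_le_of_fiber str_surjective two_pow_mul_le)

/-! ### The finitely many relevant guides -/

/-- the values from a finite table -/
def vof (J : ℕ) (g : Fin (J + 1) → Fin (J + 1) → Bool) (i m : ℕ) : Bool :=
  if h : i ≤ J ∧ Nat.log 2 m ≤ J then
    g ⟨i, Nat.lt_succ_of_le h.1⟩ ⟨Nat.log 2 m, Nat.lt_succ_of_le h.2⟩ else false

/-- the table -/
def gof (J : ℕ) (v : ℕ → ℕ → Bool) : Fin (J + 1) → Fin (J + 1) → Bool := fun a b => v a (2 ^ (b : ℕ))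

theorem Gd_vof {lb : ℕ → ℕ → ℕ} (R : ℕ) (v : ℕ → ℕ → Bool) {u : List Bool}
    (hu : u.length ≤ 2 ^ R) :
    Gd lb (vof (Nat.log 2 R) (gof (Nat.log 2 R) v)) u = Gd lb v u := by
  refine Gd_congr fun i m ha hm => ?_
  have h1 : m < R := (Nat.pow_lt_pow_iff_right (by norm_num)).1 (hm.trans_le hu)
  have h2 : Nat.log 2 m ≤ Nat.log 2 R := Nat.log_mono_right h1.le
  have h3 : i ≤ Nat.log 2 R := ha.2.1.trans h2
  unfold vof
  rw [dif_pos ⟨h3, h2⟩]
  unfold gof
  simp only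
  rw [ha.1]

theorem card_tab (J : ℕ) :
    Fintype.card (Fin (J + 1) → Fin (J + 1) → Bool) = 2 ^ ((J + 1) * (J + 1)) := by
  rw [Fintype.card_fun, Fintype.card_fun, Fintype.card_fin, Fintype.card_bool, ← pow_mul]

/-! ### The events -/

variable (e : ℕ → Alg × Polynomial ℕ) (lb : ℕ → ℕ → ℕ) (M : Alg)
  (inp : ℕ → List Bool → List Bool) (Rn : ℕ → ℕ) (c₀ K : ℕ)

/-- the size of the table at length `n` -/
def JJ (n : ℕ) : ℕ := Nat.log 2 (Rn n)

/-- hits for some guide -/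
def AH : Set Oracle := ⋃ n, ⋃ t ∈ (Finset.range (2 ^ (n + 1))).filter (fun t => (str t).length = n),
  ⋃ g : Fin (JJ Rn n + 1) → Fin (JJ Rn n + 1) → Bool, Hit (Gd lb (vof (JJ Rn n) g)) M K inp t

/-- success for some guide at length `n` -/
def Su (q n : ℕ) : Set Oracle :=
  ⋃ t ∈ (Finset.range (2 ^ (n + 1))).filter (fun t => (str t).length = n),
  ⋃ g : Fin (JJ Rn n + 1) → Fin (JJ Rn n + 1) → Bool,
    {ω | (2 : ℝ) ^ (t / q) ≤ SS (Gd lb (vof (JJ Rn n) g)) M inp c₀ K t ω}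

variable {inp} {ln : ℕ → ℕ → ℕ} (hln : ∀ r w, (inp r w).length = ln r w.length)

theorem card_blk (n : ℕ) :
    (((Finset.range (2 ^ (n + 1))).filter (fun t => (str t).length = n)).card : ℝ≥0∞) ≤
      (2 : ℝ≥0∞) ^ (n + 1) := by
  have h5 : ((Finset.range (2 ^ (n + 1))).filter (fun t => (str t).length = n)).card ≤
      2 ^ (n + 1) := (Finset.card_filter_le _ _).trans (by rw [Finset.card_range])
  exact_mod_cast h5

include hln in
theorem measure_AH {E : ℕ → ℕ} {j : ℕ}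
    (hE : ∀ t, 2 ^ ((JJ Rn (str t).length + 1) * (JJ Rn (str t).length + 1)) *
      (2 * M.p.eval (ln (t + 3) (t + 1))) ≤ 2 ^ (E (str t).length))
    (hK : ∀ t, E (str t).length + (2 * ((str t).length + 1) + j) ≤ lev K (str t)) :
    randomOracle (AH lb M inp Rn K) ≤ (2⁻¹ : ℝ≥0∞) ^ j := by
  unfold AH
  refine (measure_iUnion_le _).trans ?_
  have h1 : ∀ n : ℕ, randomOracle (⋃ t ∈ (Finset.range (2 ^ (n + 1))).filter
      (fun t => (str t).length = n), ⋃ g : Fin (JJ Rn n + 1) → Fin (JJ Rn n + 1) → Bool,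
        Hit (Gd lb (vof (JJ Rn n) g)) M K inp t) ≤
      (2⁻¹ : ℝ≥0∞) ^ (n + 1) * (2⁻¹ : ℝ≥0∞) ^ j := by
    intro n
    refine (measure_biUnion_finset_le _ _).trans ?_
    refine (Finset.sum_le_sum (g := fun _ => (2⁻¹ : ℝ≥0∞) ^ (2 * (n + 1) + j)) fun t ht => ?_).trans ?_
    · have h2 := (Finset.mem_filter.1 ht).2
      refine (measure_iUnion_fintype_le _ _).trans ?_
      refine (Finset.sum_le_sum fun g _ => measure_hit (Gd lb (vof (JJ Rn n) g)) M K hln t).trans ?_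
      rw [Finset.sum_const, nsmul_eq_mul, Finset.card_univ, card_tab, ← mul_assoc, ← mul_assoc]
      have h3 := hE t
      have h4 := hK t
      rw [h2] at h3 h4
      have h5 : (((2 ^ ((JJ Rn n + 1) * (JJ Rn n + 1)) : ℕ)) : ℝ≥0∞) * 2 *
          ((M.p.eval (ln (t + 3) (t + 1)) : ℕ) : ℝ≥0∞) ≤ (2 : ℝ≥0∞) ^ (E n) := by
        rw [mul_assoc]
        exact_mod_cast h3
      refine (mul_le_mul_left h5 _).trans (two_pow_mul_le h4)
    · rw [Finset.sum_const, nsmul_eq_mul]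
      refine (mul_le_mul_left (card_blk n) _).trans ?_
      rw [← pow_add]
      exact two_pow_mul_le (by omega)
  refine (ENNReal.tsum_le_tsum h1).trans ?_
  rw [ENNReal.tsum_mul_right, ENNReal.tsum_geometric_add_one, ENNReal.one_sub_inv_two, inv_inv,
    ENNReal.inv_mul_cancel (by norm_num) (by norm_num), one_mul]

include hln in
theorem measure_Su {q n : ℕ} (hq : 1 ≤ q)
    (hn : q * ((JJ Rn n + 1) * (JJ Rn n + 1) + (n + 1) + (c₀ + 1) + n + 1) + 1 ≤ 2 ^ n) :
    randomOracle (Su lb M inp Rn c₀ K q n) ≤ (2⁻¹ : ℝ≥0∞) ^ n := by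
  unfold Su
  refine (measure_biUnion_finset_le _ _).trans ?_
  refine (Finset.sum_le_sum (g := fun _ => (2⁻¹ : ℝ≥0∞) ^ ((n + 1) + n)) fun t ht => ?_).trans ?_
  · have h2 := (length_str_eq (n := t) (m := n)).1 (Finset.mem_filter.1 ht).2
    refine (measure_iUnion_fintype_le _ _).trans ?_
    refine (Finset.sum_le_sum fun g _ =>
      measure_win (Gd lb (vof (JJ Rn n) g)) M c₀ K hln (t / q) t).trans ?_
    rw [Finset.sum_const, nsmul_eq_mul, Finset.card_univ, card_tab, ← mul_assoc]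
    have h5 : (((2 ^ ((JJ Rn n + 1) * (JJ Rn n + 1)) : ℕ)) : ℝ≥0∞) * ((c₀ + 1 : ℕ) : ℝ≥0∞) ≤
        (2 : ℝ≥0∞) ^ ((JJ Rn n + 1) * (JJ Rn n + 1) + (c₀ + 1)) := by
      rw [pow_add]
      have h6 : ((c₀ + 1 : ℕ) : ℝ≥0∞) ≤ (2 : ℝ≥0∞) ^ (c₀ + 1) := by
        have : c₀ + 1 ≤ 2 ^ (c₀ + 1) := Nat.lt_two_pow_self.le
        exact_mod_cast this
      push_cast
      gcongr
      exact_mod_cast h6
    refine (mul_le_mul_left h5 _).trans (two_pow_mul_le ?_)
    have h7 : ((JJ Rn n + 1) * (JJ Rn n + 1) + (n + 1) + (c₀ + 1) + n + 1) ≤ t / q := by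
      rw [Nat.le_div_iff_mul_le hq]
      have : ((JJ Rn n + 1) * (JJ Rn n + 1) + (n + 1) + (c₀ + 1) + n + 1) * q =
        q * ((JJ Rn n + 1) * (JJ Rn n + 1) + (n + 1) + (c₀ + 1) + n + 1) := mul_comm _ _
      omega
    omega
  · rw [Finset.sum_const, nsmul_eq_mul]
    refine (mul_le_mul_left (card_blk n) _).trans ?_
    exact two_pow_mul_le (by omega)

include hln in
theorem measure_limsup_Su {q : ℕ} (hq : 1 ≤ q)
    (hn : ∀ᶠ n in atTop, q * ((JJ Rn n + 1) * (JJ Rn n + 1) + (n + 1) + (c₀ + 1) + n + 1) + 1 ≤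
      2 ^ n) :
    randomOracle {ω | ∃ᶠ n in atTop, ω ∈ Su lb M inp Rn c₀ K q n} = 0 := by
  obtain ⟨N, hN⟩ := eventually_atTop.1 hn
  have h1 : ∑' n, randomOracle (Su lb M inp Rn c₀ K q (n + N)) ≠ ∞ := by
    refine ne_top_of_le_ne_top (b := ∑' n : ℕ, (2⁻¹ : ℝ≥0∞) ^ n) ?_
      (ENNReal.tsum_le_tsum fun n => ?_)
    · rw [ENNReal.tsum_geometric, ENNReal.one_sub_inv_two, inv_inv]
      norm_num
    · refine (measure_Su lb M Rn c₀ K hln hq (hN _ (Nat.le_add_left _ _))).trans ?_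
      exact pow_le_pow_right_of_le_one' (by simp) (Nat.le_add_right _ _)
  have h2 := measure_limsup_atTop_eq_zero h1
  refine measure_mono_null ?_ h2
  intro ω hω
  rw [mem_limsup_iff_frequently_mem]
  rw [Set.mem_ofPred_eq] at hω
  rw [frequently_atTop] at hω ⊢
  intro a
  obtain ⟨b, hb1, hb2⟩ := hω (a + N)
  refine ⟨b - N, by omega, ?_⟩
  rw [Nat.sub_add_cancel (by omega)]
  exact hb2

/-! ### The bad event -/

variable (inp) in
/-- the algorithm computes a density function which grows exponentially on the columns -/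
def Bad (S : Set ℕ) (q : ℕ) : Set Oracle :=
  {ω | ∃ d : List Bool → ℝ, IsDensity d ∧ d [] ≤ c₀ ∧
    (∀ r w, ∃ u x, M.out (orc (Gd lb (vs e lb ω)) ω) (inp r w) = some u ∧ Names u x ∧
      |x - d w| ≤ (1 / 2) ^ r) ∧
    ∀ K ∈ S, ∃ᶠ n in atTop, (2 : ℝ) ^ n ≤ (d (pre (LK ω K) n)) ^ q}

variable {Rn}

include hln in
theorem le_SS {qb : Polynomial ℕ}
    (hqb : ∀ (A A' : Oracle) (u : List Bool),
      (∀ v : List Bool, v.length ≤ qb.eval u.length → A v = A' v) → M.out A u = M.out A' u)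
    (hmono : Monotone Rn)
    (hR : ∀ t, qb.eval (ln (t + 3) (t + 1)) ≤ 2 ^ (Rn (str t).length))
    {ω : Oracle} (hω : ω ∉ AH lb M inp Rn K) {d : List Bool → ℝ}
    (h1 : IsDensity d) (h2 : d [] ≤ c₀)
    (h3 : ∀ r w, ∃ u x, M.out (orc (Gd lb (vs e lb ω)) ω) (inp r w) = some u ∧ Names u x ∧
      |x - d w| ≤ (1 / 2) ^ r) (n t : ℕ) (ht : (str t).length ≤ n) :
    d (pre (LK ω K) t) ≤
      SS (Gd lb (vof (JJ Rn n) (gof (JJ Rn n) (vs e lb ω)))) M inp c₀ K t ω := by
  -- the guides agree on the questions asked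
  have hg : ∀ (t n : ℕ), (str t).length ≤ n → ∀ (ω' : Oracle) (b : Bool),
      M.out (orc (Gd lb (vof (JJ Rn n) (gof (JJ Rn n) (vs e lb ω)))) ω') (inq inp K t ω b) =
        M.out (orc (Gd lb (vs e lb ω)) ω') (inq inp K t ω b) := by
    intro t n hn ω' b
    refine hqb _ _ _ fun v hv => ?_
    rw [length_inq K hln] at hv
    refine orc_guide (n := 2 ^ (Rn n)) (fun u hu => Gd_vof (Rn n) _ hu.le) ω' ?_
    exact (hv.trans (hR t)).trans (Nat.pow_le_pow_right (by norm_num) (hmono hn))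
  have hh : ∀ (t : ℕ) (b : Bool), M.out (orc (Gd lb (vs e lb ω)) ω) (inq inp K t ω b) =
      M.out (orc (Gd lb (vs e lb ω)) (cmb (Kp K t) ω zer)) (inq inp K t ω b) := by
    intro t b
    rw [← hg t _ le_rfl ω b, ← hg t _ le_rfl (cmb (Kp K t) ω zer) b]
    by_contra hne
    apply hω
    refine Set.mem_iUnion.2 ⟨(str t).length, Set.mem_biUnion (x := t) ?_
      (Set.mem_iUnion.2 ⟨gof (JJ Rn (str t).length) (vs e lb ω), b, hne⟩)⟩
    rw [Finset.mem_coe, Finset.mem_filter, Finset.mem_range]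
    have := (length_str_eq (n := t) (m := (str t).length)).1 rfl
    exact ⟨by omega, rfl⟩
  induction t with
  | zero =>
    have : pre (LK ω K) 0 = [] := by simp [pre]
    rw [this, SS]
    exact h2
  | succ t ih =>
    have htn : (str t).length ≤ n := (length_str_mono (Nat.le_succ t)).trans ht
    have ih' := ih htn
    have hv : ∀ b, |vv (Gd lb (vof (JJ Rn n) (gof (JJ Rn n) (vs e lb ω)))) M inp K t ω b -
        d (pre (LK ω K) t ++ [b])| ≤ (1 / 2) ^ (t + 3) := by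
      intro b
      obtain ⟨u, q, h4, h5, h6⟩ := h3 (t + 3) (pre (LK ω K) t ++ [b])
      have h8 : vv (Gd lb (vof (JJ Rn n) (gof (JJ Rn n) (vs e lb ω)))) M inp K t ω b = q := by
        unfold vv
        rw [hg t n htn, ← hh]
        change dyv (M.out _ (inp (t + 3) (pre (LK ω K) t ++ [b]))) = q
        rw [h4]
        exact dyv_eq h5
      rw [h8]
      exact h6
    have hv0 := abs_le.1 (hv false)
    have hv1 := abs_le.1 (hv true)
    have hd0 := h1.nonneg (pre (LK ω K) t ++ [false])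
    have hd1 := h1.nonneg (pre (LK ω K) t ++ [true])
    have hd2 := h1.split (pre (LK ω K) t)
    rw [SS, if_pos ⟨by linarith, by linarith, by linarith⟩]
    have hp : pre (LK ω K) (t + 1) = pre (LK ω K) t ++ [ω (cs K (str t) 0)] := by
      classical
      rw [pre_succ]
      congr 2
      rw [Bool.eq_iff_iff, decide_eq_true_iff]
      rfl
    rw [hp]
    have hv2 := abs_le.1 (hv (ω (cs K (str t) 0)))
    linarith

include hln in
theorem measure_Bad {qb : Polynomial ℕ}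
    (hqb : ∀ (A A' : Oracle) (u : List Bool),
      (∀ v : List Bool, v.length ≤ qb.eval u.length → A v = A' v) → M.out A u = M.out A' u)
    (hmono : Monotone Rn)
    (hR : ∀ t, qb.eval (ln (t + 3) (t + 1)) ≤ 2 ^ (Rn (str t).length))
    {E : ℕ → ℕ}
    (hE : ∀ t, 2 ^ ((JJ Rn (str t).length + 1) * (JJ Rn (str t).length + 1)) *
      (2 * M.p.eval (ln (t + 3) (t + 1))) ≤ 2 ^ (E (str t).length))
    (S : Set ℕ) (hK : ∀ j, ∃ K ∈ S, ∀ t,
      E (str t).length + (2 * ((str t).length + 1) + j) ≤ lev K (str t))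
    {q : ℕ} (hq : 1 ≤ q)
    (hn : ∀ᶠ n in atTop, q * ((JJ Rn n + 1) * (JJ Rn n + 1) + (n + 1) + (c₀ + 1) + n + 1) + 1 ≤
      2 ^ n) :
    randomOracle (Bad e lb M inp c₀ S q) = 0 := by
  have h1 : ∀ j : ℕ, randomOracle (Bad e lb M inp c₀ S q) ≤ (2⁻¹ : ℝ≥0∞) ^ j := by
    intro j
    obtain ⟨K, hKS, hKt⟩ := hK j
    have hsub : Bad e lb M inp c₀ S q ⊆ AH lb M inp Rn K ∪
        {ω | ∃ᶠ n in atTop, ω ∈ Su lb M inp Rn c₀ K q n} := by
      rintro ω ⟨d, h1, h2, h3, h4⟩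
      by_cases hω : ω ∈ AH lb M inp Rn K
      · exact Or.inl hω
      · right
        rw [Set.mem_ofPred_eq, frequently_atTop]
        intro a
        obtain ⟨t, ht1, ht2⟩ := frequently_atTop.1 (h4 K hKS) (2 ^ a)
        obtain ⟨n, hn⟩ : ∃ n, n = (str t).length := ⟨_, rfl⟩
        have hl := (length_str_eq (n := t) (m := n)).1 hn.symm
        have han : a ≤ n := by
          have h5 : 2 ^ a < 2 ^ (n + 1) := by omega
          have := (Nat.pow_lt_pow_iff_right (a := 2) (by norm_num)).1 h5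
          omega
        refine ⟨n, han, ?_⟩
        refine Set.mem_biUnion (x := t) ?_ (Set.mem_iUnion.2
          ⟨gof (JJ Rn n) (vs e lb ω), ?_⟩)
        · rw [Finset.mem_coe, Finset.mem_filter, Finset.mem_range]
          exact ⟨by omega, hn.symm⟩
        · rw [Set.mem_ofPred_eq]
          have h5 := le_SS e lb M c₀ K hln hqb hmono hR hω h1 h2 h3 n t hn.ge
          refine le_trans ?_ h5
          have h6 : 0 ≤ d (pre (LK ω K) t) := h1.nonneg _
          have h7 : ((2 : ℝ) ^ (t / q)) ^ q ≤ (d (pre (LK ω K) t)) ^ q := by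
            rw [← pow_mul]
            exact (pow_le_pow_right₀ (by norm_num) (Nat.div_mul_le_self t q)).trans ht2
          exact (pow_le_pow_iff_left₀ (by positivity) h6 (by omega)).1 h7
    refine (measure_mono hsub).trans ((measure_union_le _ _).trans ?_)
    rw [measure_limsup_Su lb M Rn c₀ K hln hq hn, add_zero]
    exact measure_AH lb M Rn K hln hE hKt
  have h3 : Tendsto (fun k : ℕ => (2⁻¹ : ℝ≥0∞) ^ k) atTop (𝓝 0) :=
    ENNReal.tendsto_pow_atTop_nhds_zero_of_lt_one (by norm_num)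
  exact le_antisymm (ge_of_tendsto' h3 h1) zero_le

end Pool.Agent.W2helper61.Dim
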