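import Pool.Agent.W2helper61.Mes.Null

/-!
# The oracle built from a guide `B` and a random seed `ω`, with columns of two kinds
-/

namespace Pool.Agent.W2helper61.Dim

open MeasureTheory Pool.Agent.NPC Pool.Agent.H628R3.RO
open scoped ENNReal
open Pool.Agent.W2helper61.Mes (ones str pre code cs code_inj cs_inj length_code ones_inj
  pairBits_inj length_ones length_cs LK cmb cmb_of_mem cmb_of_notMem zer measure_cyl Dep)

/-- the length of the witnesses for `x` in column `K` -/
def lev (K : ℕ) (x : List Bool) : ℕ :=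
  if K % 2 = 0 then (x.length + 2) ^ (K + 2) else (K + 2) * (x.length + 1)

/-- the witness of the pair `(K, x)` -/
def wit (ω : Oracle) (K : ℕ) (x : List Bool) : List Bool :=
  (List.range (lev K x)).map (fun i => ω (cs K x (i + 1)))

open Classical in
/-- the random part of the oracle -/
noncomputable def posG (ω : Oracle) (v : List Bool) : Bool :=
  decide (∃ (K : ℕ) (x : List Bool), ω (cs K x 0) = true ∧ v = code K x (wit ω K x))

/-- the oracle with guide `B` and seed `ω` -/
noncomputable def orc (B : List Bool → Bool) (ω : Oracle) : Oracle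
  | [] => false
  | false :: v => B v
  | true :: v => posG ω v

theorem length_wit (ω : Oracle) (K : ℕ) (x : List Bool) : (wit ω K x).length = lev K x := by
  simp [wit]

theorem posG_iff (ω : Oracle) (v : List Bool) : posG ω v = true ↔
    ∃ (K : ℕ) (x : List Bool), ω (cs K x 0) = true ∧ v = code K x (wit ω K x) := by
  classical
  unfold posG
  exact decide_eq_true_iff

theorem posG_code (ω : Oracle) (K : ℕ) (x y : List Bool) :
    posG ω (code K x y) = true ↔ ω (cs K x 0) = true ∧ y = wit ω K x := by
  rw [posG_iff]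
  constructor
  · rintro ⟨K', x', h1, h2⟩
    obtain ⟨rfl, rfl, rfl⟩ := code_inj h2
    exact ⟨h1, rfl⟩
  · rintro ⟨h1, rfl⟩
    exact ⟨K, x, h1, rfl⟩

theorem mem_LK {B : List Bool → Bool} {ω : Oracle} {K : ℕ} {x : List Bool} :
    x ∈ LK ω K ↔ ∃ y : List Bool, y.length = lev K x ∧ orc B ω (true :: code K x y) = true := by
  constructor
  · intro h
    exact ⟨wit ω K x, length_wit _ _ _, (posG_code _ _ _ _).2 ⟨h, rfl⟩⟩
  · rintro ⟨y, _, hy⟩
    exact ((posG_code _ _ _ _).1 hy).1

/-- the random part depends only on the relevant coins -/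
theorem posG_congr {ω ω' : Oracle} {v : List Bool}
    (h : ∀ K x y, v = code K x y → ∀ i ≤ lev K x, ω (cs K x i) = ω' (cs K x i)) :
    posG ω v = posG ω' v := by
  have key : ∀ ω ω' : Oracle, (∀ K x y, v = code K x y → ∀ i ≤ lev K x,
      ω (cs K x i) = ω' (cs K x i)) → posG ω v = true → posG ω' v = true := by
    intro ω ω' h hv
    rw [posG_iff] at hv
    obtain ⟨K, x, h1, h2⟩ := hv
    have h3 := h K x _ h2
    rw [h2, posG_code]
    refine ⟨by rw [← h3 0 (Nat.zero_le _)]; exact h1, ?_⟩
    unfold wit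
    refine List.map_congr_left fun i hi => h3 _ ?_
    have := List.mem_range.1 hi
    omega
  rw [Bool.eq_iff_iff]
  exact ⟨key ω ω' h, key ω' ω fun K x y hv i hi => (h K x y hv i hi).symm⟩

/-- Of every pair either all the relevant coins are kept, or none; in the latter case the
level is at least `ℓ`. -/
def Blk (S : Set (List Bool)) (ℓ : ℕ) : Prop :=
  ∀ (K : ℕ) (x : List Bool), (∀ i ≤ lev K x, cs K x i ∈ S) ∨ ((∀ i, cs K x i ∉ S) ∧ ℓ ≤ lev K x)

theorem measure_surprise {S : Set (List Bool)} {ℓ : ℕ} (hS : Blk S ℓ) (B : List Bool → Bool)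
    (ω₀ : Oracle) (q : List Bool) :
    randomOracle {ω | orc B (cmb S ω₀ ω) q ≠ orc B (cmb S ω₀ zer) q} ≤ (2⁻¹ : ℝ≥0∞) ^ ℓ := by
  have hempty : ∀ h : ∀ ω, orc B (cmb S ω₀ ω) q = orc B (cmb S ω₀ zer) q,
      randomOracle {ω | orc B (cmb S ω₀ ω) q ≠ orc B (cmb S ω₀ zer) q} ≤ (2⁻¹ : ℝ≥0∞) ^ ℓ := by
    intro h
    have : {ω | orc B (cmb S ω₀ ω) q ≠ orc B (cmb S ω₀ zer) q} = ∅ := by
      ext ω; simp [h ω]
    rw [this]; simp
  rcases q with _ | ⟨b, v⟩
  · exact hempty fun ω => rfl
  cases b with
  | false => exact hempty fun ω => rfl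
  | true =>
    by_cases hv : ∃ K x y, v = code K x y
    · obtain ⟨K, x, y, rfl⟩ := hv
      rcases hS K x with hk | ⟨hk, hl⟩
      · refine hempty fun ω => ?_
        change posG _ _ = posG _ _
        refine posG_congr fun K' x' y' h i hi => ?_
        obtain ⟨rfl, rfl, rfl⟩ := code_inj h
        rw [cmb_of_mem (hk i hi), cmb_of_mem (hk i hi)]
      · have hsub : {ω | orc B (cmb S ω₀ ω) (true :: code K x y) ≠
            orc B (cmb S ω₀ zer) (true :: code K x y)} ⊆
            {ω | ∀ i < lev K x, ω (cs K x (i + 1)) = y[i]?.getD false} := by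
          intro ω hω
          have h1 : orc B (cmb S ω₀ zer) (true :: code K x y) = false := by
            change posG _ _ = false
            rw [← Bool.not_eq_true, posG_code, cmb_of_notMem (hk 0)]
            simp [zer]
          have h2 : orc B (cmb S ω₀ ω) (true :: code K x y) = true := by
            have h3 : orc B (cmb S ω₀ ω) (true :: code K x y) ≠
              orc B (cmb S ω₀ zer) (true :: code K x y) := hω
            rw [h1] at h3
            simpa using h3
          change posG _ _ = true at h2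
          rw [posG_code] at h2
          intro i hi
          have h4 := h2.2
          have h5 : i < (wit (cmb S ω₀ ω) K x).length := by rw [length_wit]; exact hi
          rw [h4, List.getElem?_eq_getElem h5]
          simp only [wit, List.getElem_map, List.getElem_range, Option.getD_some]
          rw [cmb_of_notMem (hk _)]
        refine (measure_mono hsub).trans ?_
        rw [measure_cyl (lev K x) (fun i => cs K x (i + 1)) (fun i j h => by
          have := (cs_inj h).2.2; omega) (fun i => y[i]?.getD false)]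
        exact pow_le_pow_right_of_le_one' (by simp) hl
    · refine hempty fun ω => ?_
      change posG _ _ = posG _ _
      exact posG_congr fun K x y h => (hv ⟨K, x, y, h⟩).elim

theorem measure_run {S : Set (List Bool)} {ℓ : ℕ} (hS : Blk S ℓ) (B : List Bool → Bool)
    (M : Alg) (ω₀ : Oracle) (u : List Bool) :
    randomOracle {ω | M.out (orc B (cmb S ω₀ ω)) u ≠ M.out (orc B (cmb S ω₀ zer)) u} ≤
      ((M.p.eval u.length : ℕ) : ℝ≥0∞) * (2⁻¹ : ℝ≥0∞) ^ ℓ := by
  obtain ⟨qb, hqb⟩ := M.out_local
  obtain ⟨Q, h1, _, h3⟩ := hqb (orc B (cmb S ω₀ zer)) u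
  have hsub : {ω | M.out (orc B (cmb S ω₀ ω)) u ≠ M.out (orc B (cmb S ω₀ zer)) u} ⊆
      ⋃ q ∈ Q, {ω | orc B (cmb S ω₀ ω) q ≠ orc B (cmb S ω₀ zer) q} := by
    intro ω hω
    by_contra hcon
    apply hω
    apply h3
    intro q hq
    by_contra hne
    exact hcon (Set.mem_biUnion hq hne)
  refine (measure_mono hsub).trans ((measure_biUnion_finset_le Q _).trans ?_)
  refine (Finset.sum_le_sum fun q _ => measure_surprise hS B ω₀ q).trans ?_
  rw [Finset.sum_const, nsmul_eq_mul]
  have h4 : (Q.card : ℝ≥0∞) ≤ ((M.p.eval u.length : ℕ) : ℝ≥0∞) := by exact_mod_cast h1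
  exact mul_le_mul_left h4 _

/-- bound for the names of the coins relevant for the oracle up to length `n` -/
def bdc (n : ℕ) : ℕ := n + (n + 2) ^ (n + 2) + n + 2

theorem lev_le {K n : ℕ} {x : List Bool} (h : 2 * K + 1 + 2 * x.length ≤ n) :
    lev K x ≤ (n + 2) ^ (n + 2) := by
  unfold lev
  split_ifs
  · calc (x.length + 2) ^ (K + 2) ≤ (n + 2) ^ (K + 2) := Nat.pow_le_pow_left (by omega) _
      _ ≤ (n + 2) ^ (n + 2) := Nat.pow_le_pow_right (by omega) (by omega)
  · calc (K + 2) * (x.length + 1) ≤ (n + 2) * (n + 2) := Nat.mul_le_mul (by omega) (by omega)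
      _ = (n + 2) ^ 2 := by ring
      _ ≤ (n + 2) ^ (n + 2) := Nat.pow_le_pow_right (by omega) (by omega)

theorem orc_dep (B : List Bool → Bool) {n : ℕ} {ω ω' : Oracle}
    (h : ∀ s : List Bool, s.length ≤ bdc n → ω s = ω' s) {v : List Bool} (hv : v.length ≤ n) :
    orc B ω v = orc B ω' v := by
  rcases v with _ | ⟨b, v⟩
  · rfl
  cases b with
  | false => rfl
  | true =>
    change posG _ _ = posG _ _
    refine posG_congr fun K x y hc i hi => h _ ?_
    rw [length_cs]
    have h1 : (code K x y).length < n := by rw [← hc]; simpa using hv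
    rw [length_code] at h1
    have h2 : i ≤ (n + 2) ^ (n + 2) := hi.trans (lev_le (by omega))
    unfold bdc
    omega

/-- the oracles with two guides agree where the guides agree -/
theorem orc_guide {B B' : List Bool → Bool} {n : ℕ}
    (h : ∀ u : List Bool, u.length < n → B u = B' u) (ω : Oracle) {v : List Bool}
    (hv : v.length ≤ n) : orc B ω v = orc B' ω v := by
  rcases v with _ | ⟨b, v⟩
  · rfl
  cases b with
  | false => exact h v (by simpa using hv)
  | true => rfl

end Pool.Agent.W2helper61.Dim
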