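import Pool.Agent.W2helper61.Dim.Base
import Pool.Agent.W2helper61.Mes.Fp
import Pool.Agent.W2helper61.Mes.Str

/-!
# The guide: sparse bets on all languages in `NP`
-/

namespace Pool.Agent.W2helper61.Dim

open MeasureTheory Filter Pool.Agent.NPC Pool.Agent.H628R3.RO
open scoped ENNReal Topology
open Pool.Agent.W2helper61.Mes (ones str pre code cs code_inj cs_inj length_code ones_inj
  pairBits_inj length_ones length_cs Acc acc_local LB exists_lb IsDensity IsNullCover NullP
  Approx Names hatQ hatH p_hatQ p_hatH valB_testBits length_str_eq pre_succ length_pre)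

variable (lb : ℕ → ℕ → ℕ)

/-- machine `i` is considered at length `m` -/
def act (i m : ℕ) : Prop := 2 ^ Nat.log 2 m = m ∧ i ≤ Nat.log 2 m ∧ lb i m ≤ 2 ^ m

open Classical in
/-- the factor for the bet on the string number `p` -/
noncomputable def bt (v : ℕ → ℕ → Bool) (i p : ℕ) (b : Bool) : ℝ :=
  if 2 ^ Nat.log 2 (p + 1) = p + 1 ∧ act lb i (Nat.log 2 (p + 1)) then
    (if b = v i (Nat.log 2 (p + 1)) then 2 else 0) else 1

/-- the bets on machine `i` -/
noncomputable def DD (v : ℕ → ℕ → Bool) (i : ℕ) (w : List Bool) : ℝ :=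
  ∏ p ∈ Finset.range w.length, bt lb v i p (w.getD p false)

/-- the null cover -/
noncomputable def dv (v : ℕ → ℕ → Bool) (k : ℕ) (w : List Bool) : ℝ :=
  ∑' i : ℕ, (1 / 2) ^ (k + i + 1) * DD lb v i w

variable {lb}

theorem bt_nonneg (v : ℕ → ℕ → Bool) (i p : ℕ) (b : Bool) : 0 ≤ bt lb v i p b := by
  unfold bt; split_ifs <;> norm_num

theorem bt_le (v : ℕ → ℕ → Bool) (i p : ℕ) (b : Bool) : bt lb v i p b ≤ 2 := by
  unfold bt; split_ifs <;> norm_num

theorem bt_add (v : ℕ → ℕ → Bool) (i p : ℕ) : bt lb v i p false + bt lb v i p true = 2 := by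
  classical
  unfold bt
  by_cases h : 2 ^ Nat.log 2 (p + 1) = p + 1 ∧ act lb i (Nat.log 2 (p + 1))
  · rw [if_pos h, if_pos h]
    cases v i (Nat.log 2 (p + 1)) <;> norm_num
  · rw [if_neg h, if_neg h]; norm_num

theorem DD_nonneg (v : ℕ → ℕ → Bool) (i : ℕ) (w : List Bool) : 0 ≤ DD lb v i w :=
  Finset.prod_nonneg fun p _ => bt_nonneg v i p _

theorem DD_le (v : ℕ → ℕ → Bool) (i : ℕ) (w : List Bool) : DD lb v i w ≤ 2 ^ w.length := by
  unfold DD
  calc ∏ p ∈ Finset.range w.length, bt lb v i p (w.getD p false)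
      ≤ ∏ p ∈ Finset.range w.length, (2 : ℝ) :=
        Finset.prod_le_prod (fun p _ => bt_nonneg v i p _) fun p _ => bt_le v i p _
    _ = 2 ^ w.length := by simp

theorem DD_snoc (v : ℕ → ℕ → Bool) (i : ℕ) (w : List Bool) (b : Bool) :
    DD lb v i (w ++ [b]) = DD lb v i w * bt lb v i w.length b := by
  unfold DD
  rw [List.length_append, List.length_singleton, Finset.prod_range_succ]
  congr 1
  · refine Finset.prod_congr rfl fun p hp => ?_
    have hp' := Finset.mem_range.1 hp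
    rw [List.getD_append _ _ _ _ hp']
  · rw [List.getD_append_right _ _ _ _ le_rfl]
    simp

theorem DD_nil (v : ℕ → ℕ → Bool) (i : ℕ) : DD lb v i [] = 1 := by simp [DD]

theorem hasSum_half : HasSum (fun i : ℕ => ((1 : ℝ) / 2) ^ (i + 1)) 1 := by
  have h1 := hasSum_geometric_two' (1 : ℝ)
  have h2 : (fun i : ℕ => ((1 : ℝ) / 2) ^ (i + 1)) = fun i => 1 / 2 / 2 ^ i := by
    funext i
    rw [one_div_pow, pow_succ, div_div, mul_comm]
  rw [h2]
  exact h1

theorem summable_wt (k : ℕ) : Summable (fun i : ℕ => ((1 : ℝ) / 2) ^ (k + i + 1)) := by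
  refine (hasSum_half.summable.mul_left ((1 / 2) ^ k)).congr fun i => ?_
  rw [← pow_add, add_assoc]

theorem tsum_wt (k : ℕ) : ∑' i : ℕ, ((1 : ℝ) / 2) ^ (k + i + 1) = (1 / 2) ^ k := by
  have h : (fun i : ℕ => ((1 : ℝ) / 2) ^ (k + i + 1)) =
      fun i => (1 / 2) ^ k * (1 / 2) ^ (i + 1) := by
    funext i
    rw [← pow_add, add_assoc]
  rw [h, tsum_mul_left, hasSum_half.tsum_eq, mul_one]

theorem summable_dv (v : ℕ → ℕ → Bool) (k : ℕ) (w : List Bool) :
    Summable (fun i : ℕ => (1 / 2 : ℝ) ^ (k + i + 1) * DD lb v i w) := by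
  refine Summable.of_nonneg_of_le (fun i => mul_nonneg (by positivity) (DD_nonneg v _ _))
    (fun i => ?_) ((summable_wt k).mul_right (2 ^ w.length))
  exact mul_le_mul_of_nonneg_left (DD_le v _ _) (by positivity)

theorem dv_nonneg (v : ℕ → ℕ → Bool) (k : ℕ) (w : List Bool) : 0 ≤ dv lb v k w :=
  tsum_nonneg fun _ => mul_nonneg (by positivity) (DD_nonneg v _ _)

theorem dv_le (v : ℕ → ℕ → Bool) (k : ℕ) (w : List Bool) :
    dv lb v k w ≤ (1 / 2) ^ k * 2 ^ w.length := by
  have h1 := (summable_dv (lb := lb) v k w).tsum_le_tsum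
    (g := fun i : ℕ => (1 / 2 : ℝ) ^ (k + i + 1) * 2 ^ w.length)
    (fun i => mul_le_mul_of_nonneg_left (DD_le v _ _) (by positivity))
    ((summable_wt k).mul_right _)
  refine h1.trans ?_
  rw [tsum_mul_right, tsum_wt]

theorem dv_nil (v : ℕ → ℕ → Bool) (k : ℕ) : dv lb v k [] ≤ (1 / 2) ^ k := by
  refine (dv_le v k []).trans ?_
  simp

theorem dv_split (v : ℕ → ℕ → Bool) (k : ℕ) (w : List Bool) :
    dv lb v k (w ++ [false]) + dv lb v k (w ++ [true]) = 2 * dv lb v k w := by
  unfold dv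
  rw [← (summable_dv v k _).tsum_add (summable_dv v k _), ← tsum_mul_left]
  refine tsum_congr fun i => ?_
  rw [← mul_add, DD_snoc, DD_snoc, ← mul_add, bt_add]
  ring

theorem isDensity_dv (v : ℕ → ℕ → Bool) (k : ℕ) : IsDensity (dv lb v k) :=
  ⟨dv_nonneg v k, fun w => by rw [dv_split]; linarith⟩

theorem bt_right {v : ℕ → ℕ → Bool} {i : ℕ} {L : Set (List Bool)}
    (hv : ∀ m, act lb i m → (str (2 ^ m - 1) ∈ L ↔ v i m = true)) (n : ℕ) {b : Bool}
    (hb : b = true ↔ str n ∈ L) : 1 ≤ bt lb v i n b ∧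
      (∀ m, act lb i m → 2 ^ m = n + 1 → bt lb v i n b = 2) := by
  have h1 : ∀ m, act lb i m → 2 ^ m = n + 1 → b = v i m := by
    intro m hm hn
    rw [Bool.eq_iff_iff, hb, ← hv m hm, show 2 ^ m - 1 = n by omega]
  constructor
  · unfold bt
    split_ifs with h2 h3
    · norm_num
    · exact (h3 (h1 _ h2.2 h2.1)).elim
    · norm_num
  · intro m hm hn
    have h2 : Nat.log 2 (n + 1) = m := by rw [← hn, Nat.log_pow (by norm_num)]
    unfold bt
    rw [h2, if_pos ⟨hn, hm⟩, if_pos (h1 m hm hn)]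

theorem cover {v : ℕ → ℕ → Bool} {i : ℕ} {L : Set (List Bool)}
    (hv : ∀ m, act lb i m → (str (2 ^ m - 1) ∈ L ↔ v i m = true))
    (hlb : ∀ᶠ m in atTop, lb i m ≤ 2 ^ m) (k : ℕ) : ∃ n, 1 ≤ dv lb v k (pre L n) := by
  classical
  have hs : ∀ n, DD lb v i (pre L (n + 1)) =
      DD lb v i (pre L n) * bt lb v i n (decide (str n ∈ L)) := by
    intro n
    rw [pre_succ, DD_snoc, length_pre]
  have hr := fun n => bt_right (n := n) (b := decide (str n ∈ L)) hv decide_eq_true_iff
  have hmono : Monotone (fun n => DD lb v i (pre L n)) := by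
    refine monotone_nat_of_le_succ fun n => ?_
    rw [hs]
    exact le_mul_of_one_le_right (DD_nonneg v i _) (hr n).1
  obtain ⟨m₀, hm₀⟩ := eventually_atTop.1 hlb
  have key : ∀ s : ℕ, ∃ n, (2 : ℝ) ^ s ≤ DD lb v i (pre L n) := by
    intro s
    induction s with
    | zero =>
      refine ⟨0, ?_⟩
      have : pre L 0 = [] := by simp [pre]
      rw [this, DD_nil]
      norm_num
    | succ s ih =>
      obtain ⟨n, hn⟩ := ih
      obtain ⟨j, hj⟩ : ∃ j, j = max (max i m₀) n := ⟨_, rfl⟩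
      have hj1 : i ≤ j := by rw [hj]; exact (le_max_left _ _).trans (le_max_left _ _)
      have hj2 : m₀ ≤ j := by rw [hj]; exact (le_max_right _ _).trans (le_max_left _ _)
      have hj3 : n ≤ j := by rw [hj]; exact le_max_right _ _
      have hlt : j < 2 ^ j := Nat.lt_two_pow_self
      have hlt2 : 2 ^ j < 2 ^ (2 ^ j) := Nat.lt_two_pow_self
      have hact : act lb i (2 ^ j) := by
        unfold act
        rw [Nat.log_pow (by norm_num)]
        exact ⟨rfl, hj1, hm₀ _ (by omega)⟩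
      refine ⟨2 ^ (2 ^ j), ?_⟩
      have h1 := hs (2 ^ (2 ^ j) - 1)
      have h2 : 2 ^ (2 ^ j) - 1 + 1 = 2 ^ (2 ^ j) := by omega
      rw [(hr (2 ^ (2 ^ j) - 1)).2 (2 ^ j) hact h2.symm, h2] at h1
      rw [h1, pow_succ]
      have h3 := hmono (show n ≤ 2 ^ (2 ^ j) - 1 by omega)
      simp only at h3
      linarith
  obtain ⟨n, hn⟩ := key (k + i + 1)
  refine ⟨n, ?_⟩
  have h1 := (summable_dv (lb := lb) v k (pre L n)).le_tsum i fun j _ =>
    mul_nonneg (by positivity) (DD_nonneg v j _)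
  refine le_trans ?_ h1
  calc (1 : ℝ) = (1 / 2) ^ (k + i + 1) * 2 ^ (k + i + 1) := by
        rw [← mul_pow]; norm_num
    _ ≤ (1 / 2) ^ (k + i + 1) * DD lb v i (pre L n) :=
        mul_le_mul_of_nonneg_left hn (by positivity)

/-! ### The guide -/

variable (lb)

open Classical in
/-- the guide tells the binary digits of the values of the null cover -/
noncomputable def Gd (v : ℕ → ℕ → Bool) (u : List Bool) : Bool :=
  decide (∃ (k r : ℕ) (w : List Bool) (b : ℕ),
    u = pairBits (pairBits (ones k) (pairBits (ones r) w)) (ones b) ∧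
      Nat.testBit ⌊(2 : ℝ) ^ r * dv lb v k w⌋₊ b = true)

variable {lb}

theorem Gd_code (v : ℕ → ℕ → Bool) (k r : ℕ) (w : List Bool) (b : ℕ) :
    Gd lb v (pairBits (pairBits (ones k) (pairBits (ones r) w)) (ones b)) =
      Nat.testBit ⌊(2 : ℝ) ^ r * dv lb v k w⌋₊ b := by
  classical
  rw [Bool.eq_iff_iff]
  unfold Gd
  rw [decide_eq_true_iff]
  constructor
  · rintro ⟨k', r', w', b', h1, h2⟩
    obtain ⟨h3, h4⟩ := pairBits_inj h1
    obtain ⟨h5, h6⟩ := pairBits_inj h3
    obtain ⟨h7, h8⟩ := pairBits_inj h6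
    rw [ones_inj h4, ones_inj h5, ones_inj h7, h8]
    exact h2
  · intro h1
    exact ⟨k, r, w, b, rfl, h1⟩

theorem dv_congr {v v' : ℕ → ℕ → Bool} {k : ℕ} {w : List Bool}
    (h : ∀ i m, act lb i m → 2 ^ m ≤ w.length → v i m = v' i m) : dv lb v k w = dv lb v' k w := by
  classical
  unfold dv
  refine tsum_congr fun i => ?_
  congr 1
  unfold DD
  refine Finset.prod_congr rfl fun p hp => ?_
  have hp' := Finset.mem_range.1 hp
  unfold bt
  by_cases hc : 2 ^ Nat.log 2 (p + 1) = p + 1 ∧ act lb i (Nat.log 2 (p + 1))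
  · rw [if_pos hc, if_pos hc, h i _ hc.2 (by rw [hc.1]; omega)]
  · rw [if_neg hc, if_neg hc]

theorem Gd_congr {v v' : ℕ → ℕ → Bool} {u : List Bool}
    (h : ∀ i m, act lb i m → 2 ^ m < u.length → v i m = v' i m) : Gd lb v u = Gd lb v' u := by
  classical
  unfold Gd
  congr 1
  refine propext (exists_congr fun k => exists_congr fun r => exists_congr fun w =>
    exists_congr fun b => and_congr_right fun hv => ?_)
  rw [dv_congr (w := w) fun i m ha hm => h i m ha ?_]
  rw [hv, length_pairBits, length_pairBits, length_pairBits]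
  omega

theorem approx_of {B : List Bool → Bool} {d : ℕ → List Bool → ℝ} (hd0 : ∀ k w, 0 ≤ d k w)
    (hd1 : ∀ k w, d k w ≤ (1 / 2) ^ k * 2 ^ w.length)
    (hB : ∀ k r w b, B (pairBits (pairBits (ones k) (pairBits (ones r) w)) (ones b)) =
      Nat.testBit ⌊(2 : ℝ) ^ r * d k w⌋₊ b) (ω : Oracle) :
    ∃ F : List Bool → List Bool, IsFP (orc B ω) F ∧ Approx F d := by
  refine ⟨_, IsFP.tt p_hatQ p_hatH, fun k r w => ?_⟩
  let u := pairBits (ones k) (pairBits (ones r) w)
  let n : ℕ := ⌊(2 : ℝ) ^ r * d k w⌋₊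
  have hu : u.length = 2 * k + 1 + (2 * r + 1 + w.length) := by
    simp only [u, length_pairBits, length_ones]
  have h1 : (hatQ u).map (orc B ω) = (List.range (u.length + 1)).map (fun b => n.testBit b) := by
    unfold hatQ
    rw [List.map_map]
    refine List.map_congr_left fun b hb => ?_
    have h2 := List.mem_range.1 hb
    rw [Function.comp_apply, min_eq_left h2.le]
    exact hB k r w b
  have hd0 := hd0 k w
  have hd1 := hd1 k w
  have hn : n < 2 ^ (u.length + 1) := by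
    have h3 : (n : ℝ) ≤ 2 ^ r * d k w := Nat.floor_le (by positivity)
    have h4 : ((1 : ℝ) / 2) ^ k ≤ 1 := pow_le_one₀ (by norm_num) (by norm_num)
    have h5 : d k w ≤ 2 ^ w.length :=
      hd1.trans (by nlinarith [show (0 : ℝ) < 2 ^ w.length by positivity])
    have h6 : (n : ℝ) ≤ 2 ^ (r + w.length) := by
      rw [pow_add]
      exact h3.trans (mul_le_mul_of_nonneg_left h5 (by positivity))
    have h7 : n ≤ 2 ^ (r + w.length) := by exact_mod_cast h6
    exact h7.trans_lt (Nat.pow_lt_pow_right (by norm_num) (by omega))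
  refine ⟨(n : ℝ) / 2 ^ r, ⟨false, (List.range (u.length + 1)).map (fun b => n.testBit b),
    ones r, ?_, ?_⟩, ?_⟩
  · change hatH (u, (hatQ u).map (orc B ω)) = _
    rw [h1]
    unfold hatH
    simp only [u, unpair_pairBits, length_ones]
  · rw [valB_testBits, Nat.mod_eq_of_lt hn, length_ones]
    simp
  · have h3 : (n : ℝ) ≤ 2 ^ r * d k w := Nat.floor_le (by positivity)
    have h4 : 2 ^ r * d k w < n + 1 := Nat.lt_floor_add_one _
    have h5 : (0 : ℝ) < 2 ^ r := by positivity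
    rw [one_div_pow, abs_le]
    constructor
    · rw [le_sub_iff_add_le, ← sub_eq_neg_add, sub_le_iff_le_add, ← add_div, le_div_iff₀ h5]
      linarith
    · have h6 : (n : ℝ) / 2 ^ r ≤ d k w := by
        rw [div_le_iff₀ h5]; linarith
      have h7 : (0 : ℝ) < 1 / 2 ^ r := by positivity
      linarith

/-! ### The fixed point -/

open Classical in
/-- one step of the recursion -/
noncomputable def stp (e : ℕ → Alg × Polynomial ℕ) (lb : ℕ → ℕ → ℕ) (ω : Oracle) (v : ℕ → ℕ → Bool) (i m : ℕ) : Bool :=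
  decide (Acc (e i).1 (e i).2 (orc (Gd lb v) ω) (str (2 ^ m - 1)))

/-- the values of the languages in `NP` -/
noncomputable def vs (e : ℕ → Alg × Polynomial ℕ) (lb : ℕ → ℕ → ℕ) (ω : Oracle) (i m : ℕ) :
    Bool :=
  ((stp e lb ω)^[m + 1] (fun _ _ => false)) i m

variable {e : ℕ → Alg × Polynomial ℕ}

theorem stp_congr (h : LB e lb) (ω : Oracle) {v v' : ℕ → ℕ → Bool} {i m : ℕ} (ha : act lb i m)
    (hv : ∀ i' m', act lb i' m' → m' < m → v i' m' = v' i' m') :
    stp e lb ω v i m = stp e lb ω v' i m := by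
  classical
  unfold stp
  congr 1
  refine propext (h.1 i _ _ _ fun q hq => ?_)
  have hlen : (str (2 ^ m - 1)).length = m := by
    rw [length_str_eq]
    have : 0 < 2 ^ m := by positivity
    have h2 : 2 ^ (m + 1) = 2 * 2 ^ m := by rw [pow_succ]; ring
    omega
  rw [hlen] at hq
  refine orc_guide (n := 2 ^ m) (fun u hu => Gd_congr fun i' m' ha' hm' => hv i' m' ha' ?_) ω
    (hq.trans ha.2.2)
  exact (Nat.pow_lt_pow_iff_right (by norm_num)).1 (hm'.trans hu)

theorem vs_key (h : LB e lb) (ω : Oracle) : ∀ (n n' i m : ℕ), act lb i m → m < n → m < n' →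
    ((stp e lb ω)^[n] (fun _ _ => false)) i m = ((stp e lb ω)^[n'] (fun _ _ => false)) i m := by
  intro n
  induction n with
  | zero => intro n' i m _ hn; omega
  | succ n ih =>
    intro n' i m ha hn hn'
    obtain ⟨n', rfl⟩ : ∃ j, n' = j + 1 := ⟨n' - 1, by omega⟩
    rw [Function.iterate_succ_apply', Function.iterate_succ_apply']
    exact stp_congr h ω ha fun i' m' ha' hm' => ih n' i' m' ha' (by omega) (by omega)

theorem vs_fix (h : LB e lb) (ω : Oracle) {i m : ℕ} (ha : act lb i m) :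
    vs e lb ω i m = true ↔
      Acc (e i).1 (e i).2 (orc (Gd lb (vs e lb ω)) ω) (str (2 ^ m - 1)) := by
  classical
  have h1 : vs e lb ω i m = stp e lb ω (vs e lb ω) i m := by
    unfold vs
    rw [Function.iterate_succ_apply']
    refine stp_congr h ω ha fun i' m' ha' hm' => ?_
    exact vs_key h ω m (m' + 1) i' m' ha' hm' (by omega)
  rw [h1]
  unfold stp
  exact decide_eq_true_iff

theorem null_np (h : LB e lb) (he : Function.Surjective e) (ω : Oracle) :
    NullP (orc (Gd lb (vs e lb ω)) ω) {L | IsNP (orc (Gd lb (vs e lb ω)) ω) L} := by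
  obtain ⟨F, hF1, hF2⟩ := approx_of (B := Gd lb (vs e lb ω)) (d := dv lb (vs e lb ω))
    (dv_nonneg _) (dv_le _) (Gd_code _) ω
  refine ⟨dv lb (vs e lb ω), F, ⟨isDensity_dv _, dv_nil _, ?_⟩, hF1, hF2⟩
  rintro k L ⟨V, p, ⟨V', hV'⟩, hL⟩
  obtain ⟨i, hi⟩ := he (V', p)
  have hL' : ∀ x, x ∈ L ↔ Acc (e i).1 (e i).2 (orc (Gd lb (vs e lb ω)) ω) x := by
    intro x
    rw [hL, hi]
    refine exists_congr fun w => and_congr_right fun _ => ?_
    rw [hV', Option.some.injEq]
  refine cover (i := i) (fun m ha => ?_) (h.2 i) k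
  rw [hL', vs_fix h ω ha]

end Pool.Agent.W2helper61.Dim
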