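import Pool.Agent.W2helper61.Dim.Guide
import Pool.Agent.W2helper61.Mes.Ville

/-!
# No computable density function grows exponentially on the columns
-/

namespace Pool.Agent.W2helper61.Dim

open MeasureTheory Filter Pool.Agent.NPC Pool.Agent.H628R3.RO
open scoped ENNReal Topology
open Pool.Agent.W2helper61.Mes (ones str pre code cs code_inj cs_inj length_code ones_inj
  pairBits_inj length_ones length_cs Acc acc_local LB exists_lb IsDensity IsNullCover NullP
  Approx Names length_str_eq pre_succ length_pre LK cmb cmb_of_mem cmb_of_notMem zer Dep cmb_cmb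
  dyv dyv_eq Kp cs_mem_Kp Agr agr_cmb agr_flp pre_agr flp flp_self flp_mp length_str_mono
  length_str_le out_congr' measure_le_of_fiber str_surjective two_pow_mul_le)

theorem lev_mono {K : ℕ} {x y : List Bool} (h : x.length ≤ y.length) : lev K x ≤ lev K y := by
  unfold lev
  split_ifs
  · exact Nat.pow_le_pow_left (by omega) _
  · exact Nat.mul_le_mul_left _ (by omega)

theorem blk_kp (K t : ℕ) : Blk (Kp K t) (lev K (str t)) := by
  intro K' x
  obtain ⟨s, rfl⟩ := str_surjective x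
  by_cases hK : K' = K
  · subst hK
    rcases Nat.lt_or_ge s t with h | h
    · exact Or.inl fun i _ => cs_mem_Kp.2 h
    · exact Or.inr ⟨fun i hi => absurd (cs_mem_Kp.1 hi) (by omega), lev_mono (length_str_mono h)⟩
  · exact Or.inl fun i _ s' i' h => (hK (cs_inj h).1).elim

/-! ### The supermartingale -/

variable (B : List Bool → Bool) (M : Alg) (inp : ℕ → List Bool → List Bool) (c₀ K : ℕ)

/-- the input at stage `t` -/
noncomputable def inq (t : ℕ) (ω : Oracle) (b : Bool) : List Bool :=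
  inp (t + 3) (pre (LK ω K) t ++ [b])

theorem inq_agr {t : ℕ} {ω ω' : Oracle} (h : Agr K t ω ω') (b : Bool) :
    inq inp K t ω b = inq inp K t ω' b := by
  unfold inq
  rw [h.pre]

/-- the value computed with the hidden oracle -/
noncomputable def vv (t : ℕ) (ω : Oracle) (b : Bool) : ℝ :=
  dyv (M.out (orc B (cmb (Kp K t) ω zer)) (inq inp K t ω b))

open Classical in
/-- the supermartingale -/
noncomputable def SS : ℕ → Oracle → ℝ
  | 0, _ => c₀
  | t + 1, ω =>
      if 0 ≤ vv B M inp K t ω false + (1 / 2) ^ (t + 3) ∧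
        0 ≤ vv B M inp K t ω true + (1 / 2) ^ (t + 3) ∧
        vv B M inp K t ω false + vv B M inp K t ω true ≤
          2 * SS t ω + 2 * (1 / 2) ^ (t + 3) then
        vv B M inp K t ω (ω (cs K (str t) 0)) + (1 / 2) ^ (t + 3) else 0

theorem vv_agr {t : ℕ} {ω ω' : Oracle} (h : Agr K t ω ω') (b : Bool) :
    vv B M inp K t ω b = vv B M inp K t ω' b := by
  unfold vv
  rw [h.cmb, inq_agr inp K h]

theorem SS_agr {t : ℕ} {ω ω' : Oracle} (h : Agr K t ω ω') :
    SS B M inp c₀ K t ω = SS B M inp c₀ K t ω' := by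
  induction t with
  | zero => rfl
  | succ t ih =>
    have h1 := h.mono (Nat.le_succ t)
    have h2 : ω (cs K (str t) 0) = ω' (cs K (str t) 0) := h _ (cs_mem_Kp.2 (Nat.lt_succ_self t))
    rw [SS, SS, ih h1, vv_agr B M inp K h1, vv_agr B M inp K h1, h2, vv_agr B M inp K h1]

theorem SS_nonneg (t : ℕ) (ω : Oracle) : 0 ≤ SS B M inp c₀ K t ω := by
  induction t with
  | zero => rw [SS]; positivity
  | succ t ih =>
    rw [SS]
    split_ifs with h2
    · cases ω (cs K (str t) 0)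
      · exact h2.1
      · exact h2.2.1
    · exact le_rfl

theorem SS_flp (t : ℕ) (ω : Oracle) :
    SS B M inp c₀ K (t + 1) ω + SS B M inp c₀ K (t + 1) (flp (cs K (str t) 0) ω) ≤
      2 * SS B M inp c₀ K t ω + 4 * (1 / 2) ^ (t + 3) := by
  have hag := agr_flp K t 0 ω
  have h0 := SS_nonneg B M inp c₀ K t ω
  have hε : (0 : ℝ) < (1 / 2) ^ (t + 3) := by positivity
  rw [SS, SS, SS_agr B M inp c₀ K hag, vv_agr B M inp K hag, vv_agr B M inp K hag,
    vv_agr B M inp K hag, flp_self]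
  split_ifs with h2
  · obtain ⟨_, _, h3⟩ := h2
    cases ω (cs K (str t) 0)
    · simp only [Bool.not_false]; linarith
    · simp only [Bool.not_true]; linarith
  · linarith

variable {inp} {ln : ℕ → ℕ → ℕ} (hln : ∀ r w, (inp r w).length = ln r w.length)

include hln in
theorem length_inq (t : ℕ) (ω : Oracle) (b : Bool) :
    (inq inp K t ω b).length = ln (t + 3) (t + 1) := by
  unfold inq
  rw [hln, List.length_append, length_pre, List.length_singleton]

include hln in
theorem dep_all (t : ℕ) : ∃ N, ∀ ω ω' : Oracle, (∀ s : List Bool, s.length ≤ N → ω s = ω' s) →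
    ω (cs K (str t) 0) = ω' (cs K (str t) 0) ∧ ∀ b, inq inp K t ω b = inq inp K t ω' b ∧
      M.out (orc B ω) (inq inp K t ω b) = M.out (orc B ω') (inq inp K t ω' b) ∧
      M.out (orc B (cmb (Kp K t) ω zer)) (inq inp K t ω b) =
        M.out (orc B (cmb (Kp K t) ω' zer)) (inq inp K t ω' b) := by
  obtain ⟨qb, hqb⟩ := out_congr' M
  refine ⟨max (K + t + 2) (bdc (qb.eval (ln (t + 3) (t + 1)))), fun ω ω' h => ⟨?_, fun b => ?_⟩⟩
  · refine h _ ?_
    rw [length_cs]
    have := length_str_le t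
    exact le_trans (by omega) (le_max_left _ _)
  have h1 : inq inp K t ω b = inq inp K t ω' b := by
    unfold inq
    rw [pre_agr (ω' := ω') fun s hs => h _ ?_]
    rw [length_cs]
    have := length_str_le s
    exact le_trans (by omega) (le_max_left _ _)
  refine ⟨h1, ?_, ?_⟩
  · rw [h1]
    refine hqb _ _ _ fun v hv => ?_
    rw [length_inq K hln] at hv
    exact orc_dep B (fun s hs => h s (hs.trans (le_max_right _ _))) hv
  · rw [h1]
    refine hqb _ _ _ fun v hv => ?_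
    rw [length_inq K hln] at hv
    refine orc_dep B (fun s hs => ?_) hv
    unfold cmb
    rw [h s (hs.trans (le_max_right _ _))]

include hln in
theorem dep_SS (t : ℕ) : ∃ N, Dep N (SS B M inp c₀ K t) := by
  induction t with
  | zero => exact ⟨0, fun ω ω' _ => rfl⟩
  | succ t ih =>
    obtain ⟨N₁, h1⟩ := ih
    obtain ⟨N₂, h2⟩ := dep_all B M K hln t
    refine ⟨max N₁ N₂, fun ω ω' h => ?_⟩
    have h3 := h1 ω ω' fun s hs => h s (hs.trans (le_max_left _ _))
    obtain ⟨h4, h5⟩ := h2 ω ω' fun s hs => h s (hs.trans (le_max_right _ _))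
    have h6 : ∀ b, vv B M inp K t ω b = vv B M inp K t ω' b := by
      intro b
      unfold vv
      rw [(h5 b).2.2]
    rw [SS, SS, h3, h4, h6, h6, h6]

include hln in
theorem measurable_SS (t : ℕ) : Measurable (SS B M inp c₀ K t) := by
  obtain ⟨N, hN⟩ := dep_SS B M c₀ K hln t
  exact hN.measurable

include hln in
theorem lint_succ (t : ℕ) : ∫⁻ ω, ENNReal.ofReal (SS B M inp c₀ K (t + 1) ω) ∂randomOracle ≤
    ∫⁻ ω, ENNReal.ofReal (SS B M inp c₀ K t ω) ∂randomOracle +
      ENNReal.ofReal (2 * (1 / 2) ^ (t + 3)) := by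
  have hf : Measurable (fun ω => ENNReal.ofReal (SS B M inp c₀ K (t + 1) ω)) :=
    (measurable_SS B M c₀ K hln (t + 1)).ennreal_ofReal
  have hg : Measurable (fun ω => ENNReal.ofReal (SS B M inp c₀ K t ω)) :=
    (measurable_SS B M c₀ K hln t).ennreal_ofReal
  have h1 := (flp_mp (cs K (str t) 0)).lintegral_comp hf
  have h2 : (2 : ℝ≥0∞) * ∫⁻ ω, ENNReal.ofReal (SS B M inp c₀ K (t + 1) ω) ∂randomOracle ≤
      2 * (∫⁻ ω, ENNReal.ofReal (SS B M inp c₀ K t ω) ∂randomOracle +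
        ENNReal.ofReal (2 * (1 / 2) ^ (t + 3))) := by
    calc (2 : ℝ≥0∞) * ∫⁻ ω, ENNReal.ofReal (SS B M inp c₀ K (t + 1) ω) ∂randomOracle
        = ∫⁻ ω, ENNReal.ofReal (SS B M inp c₀ K (t + 1) ω) ∂randomOracle +
          ∫⁻ ω, ENNReal.ofReal (SS B M inp c₀ K (t + 1) (flp (cs K (str t) 0) ω))
            ∂randomOracle := by rw [h1, two_mul]
      _ = ∫⁻ ω, (ENNReal.ofReal (SS B M inp c₀ K (t + 1) ω) +
          ENNReal.ofReal (SS B M inp c₀ K (t + 1) (flp (cs K (str t) 0) ω))) ∂randomOracle :=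
          (lintegral_add_left hf _).symm
      _ ≤ ∫⁻ ω, (2 * ENNReal.ofReal (SS B M inp c₀ K t ω) +
          2 * ENNReal.ofReal (2 * (1 / 2) ^ (t + 3))) ∂randomOracle := by
          refine lintegral_mono fun ω => ?_
          have h3 := SS_flp B M inp c₀ K t ω
          have h4 := SS_nonneg B M inp c₀ K t ω
          rw [← ENNReal.ofReal_add (SS_nonneg B M inp c₀ K _ _) (SS_nonneg B M inp c₀ K _ _)]
          have e2 : (2 : ℝ≥0∞) = ENNReal.ofReal 2 := by simp
          rw [e2, ← ENNReal.ofReal_mul (by norm_num), ← ENNReal.ofReal_mul (by norm_num),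
            ← ENNReal.ofReal_add (by positivity) (by positivity)]
          exact ENNReal.ofReal_le_ofReal (by linarith)
      _ = 2 * (∫⁻ ω, ENNReal.ofReal (SS B M inp c₀ K t ω) ∂randomOracle +
        ENNReal.ofReal (2 * (1 / 2) ^ (t + 3))) := by
          rw [lintegral_add_right _ measurable_const, lintegral_const_mul _ hg, lintegral_const,
            measure_univ, mul_one, mul_add]
  exact (ENNReal.mul_le_mul_iff_right (by norm_num) (by norm_num)).1 h2

include hln in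
theorem lint_le (t : ℕ) : ∫⁻ ω, ENNReal.ofReal (SS B M inp c₀ K t ω) ∂randomOracle ≤
    ENNReal.ofReal (c₀ + 1 - (1 / 2) ^ t) := by
  induction t with
  | zero =>
    have : ∀ ω, SS B M inp c₀ K 0 ω = c₀ := fun ω => by rw [SS]
    simp only [this, lintegral_const, measure_univ, mul_one]
    exact ENNReal.ofReal_le_ofReal (by norm_num)
  | succ t ih =>
    refine (lint_succ B M c₀ K hln t).trans ((add_le_add_left ih _).trans ?_)
    have h1 : ((1 : ℝ) / 2) ^ t ≤ 1 := pow_le_one₀ (by norm_num) (by norm_num)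
    have h3 : (0 : ℝ) < (1 / 2) ^ t := by positivity
    have h0 : (0 : ℝ) ≤ c₀ := Nat.cast_nonneg _
    rw [← ENNReal.ofReal_add (by linarith) (by positivity)]
    refine ENNReal.ofReal_le_ofReal ?_
    have h4 : ((1 : ℝ) / 2) ^ (t + 3) = (1 / 2) ^ t / 8 := by rw [pow_add]; ring
    have h5 : ((1 : ℝ) / 2) ^ (t + 1) = (1 / 2) ^ t / 2 := by rw [pow_succ]; ring
    rw [h4, h5]
    linarith

include hln in
theorem measure_win (a t : ℕ) : randomOracle {ω | (2 : ℝ) ^ a ≤ SS B M inp c₀ K t ω} ≤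
    (c₀ + 1 : ℕ) * (2⁻¹ : ℝ≥0∞) ^ a := by
  have h1 := mul_meas_ge_le_lintegral (μ := randomOracle)
    ((measurable_SS B M c₀ K hln t).ennreal_ofReal) ((2 : ℝ≥0∞) ^ a)
  have h2 : {ω | (2 : ℝ) ^ a ≤ SS B M inp c₀ K t ω} =
      {ω | (2 : ℝ≥0∞) ^ a ≤ ENNReal.ofReal (SS B M inp c₀ K t ω)} := by
    ext ω
    have e2 : (2 : ℝ≥0∞) ^ a = ENNReal.ofReal (2 ^ a) := by
      rw [ENNReal.ofReal_pow (by norm_num)]; simp
    rw [Set.mem_ofPred_eq, Set.mem_ofPred_eq, e2,
      ENNReal.ofReal_le_ofReal_iff (SS_nonneg B M inp c₀ K t ω)]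
  rw [h2]
  have h3 : (2 : ℝ≥0∞) ^ a * randomOracle {ω | (2 : ℝ≥0∞) ^ a ≤
      ENNReal.ofReal (SS B M inp c₀ K t ω)} ≤ ((c₀ + 1 : ℕ) : ℝ≥0∞) := by
    refine h1.trans ((lint_le B M c₀ K hln t).trans ?_)
    have : (((c₀ + 1 : ℕ)) : ℝ≥0∞) = ENNReal.ofReal ((c₀ + 1 : ℕ) : ℝ) :=
      (ENNReal.ofReal_natCast (c₀ + 1)).symm
    rw [this]
    refine ENNReal.ofReal_le_ofReal ?_
    have h4 : (0 : ℝ) < (1 / 2) ^ t := by positivity
    push_cast
    linarith
  have h5 : (2⁻¹ : ℝ≥0∞) ^ a * (2 : ℝ≥0∞) ^ a = 1 := by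
    rw [← mul_pow, ENNReal.inv_mul_cancel (by norm_num) (by norm_num), one_pow]
  calc randomOracle {ω | (2 : ℝ≥0∞) ^ a ≤ ENNReal.ofReal (SS B M inp c₀ K t ω)}
      = (2⁻¹ : ℝ≥0∞) ^ a * ((2 : ℝ≥0∞) ^ a * randomOracle {ω | (2 : ℝ≥0∞) ^ a ≤
        ENNReal.ofReal (SS B M inp c₀ K t ω)}) := by rw [← mul_assoc, h5, one_mul]
    _ ≤ (2⁻¹ : ℝ≥0∞) ^ a * ((c₀ + 1 : ℕ) : ℝ≥0∞) := by gcongr
    _ = _ := mul_comm _ _

/-! ### Hits -/

/-- at stage `t` the algorithm notices a hidden coin -/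
def Hit (inp : ℕ → List Bool → List Bool) (t : ℕ) : Set Oracle :=
  {ω | ∃ b, M.out (orc B ω) (inq inp K t ω b) ≠
    M.out (orc B (cmb (Kp K t) ω zer)) (inq inp K t ω b)}

include hln in
theorem measure_hit (t : ℕ) : randomOracle (Hit B M K inp t) ≤
    2 * (((M.p.eval (ln (t + 3) (t + 1)) : ℕ) : ℝ≥0∞) * (2⁻¹ : ℝ≥0∞) ^ (lev K (str t))) := by
  have hmeas : MeasurableSet (Hit B M K inp t) := by
    obtain ⟨N, hN⟩ := dep_all B M K hln t
    refine Dep.measurableSet (N := N) fun ω ω' h => ?_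
    obtain ⟨_, h2⟩ := hN ω ω' h
    refine propext (exists_congr fun b => ?_)
    rw [(h2 b).2.1, (h2 b).2.2]
  refine measure_le_of_fiber (Kp K t) hmeas fun ω₀ => ?_
  have hsub : {ω | cmb (Kp K t) ω₀ ω ∈ Hit B M K inp t} ⊆
      {ω | M.out (orc B (cmb (Kp K t) ω₀ ω)) (inq inp K t ω₀ false) ≠
        M.out (orc B (cmb (Kp K t) ω₀ zer)) (inq inp K t ω₀ false)} ∪
      {ω | M.out (orc B (cmb (Kp K t) ω₀ ω)) (inq inp K t ω₀ true) ≠
        M.out (orc B (cmb (Kp K t) ω₀ zer)) (inq inp K t ω₀ true)} := by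
    rintro ω ⟨b, hb⟩
    rw [inq_agr inp K (agr_cmb K t ω₀ ω), cmb_cmb] at hb
    cases b
    · exact Or.inl hb
    · exact Or.inr hb
  refine (measure_mono hsub).trans ((measure_union_le _ _).trans ?_)
  rw [two_mul]
  have h1 := fun b => measure_run (blk_kp K t) B M ω₀ (inq inp K t ω₀ b)
  simp only [length_inq K hln] at h1
  exact add_le_add (h1 false) (h1 true)

end Pool.Agent.W2helper61.Dim
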